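import Mathlib
import Pool.Agent.MP_e7e4ab_pr.Main

set_option autoImplicit false

open Filter Topology
open Pool.Agent.BCMRT

/-- Rooted unlabelled model: every sequence of estimators based on the isomorphism class of the
tree with its root edge fails to converge in probability to `q` for some `q ∈ [0, 1/2]`
(in fact for `q = 9/20` or for `q = 1/2`). -/
theorem Pool.Agent.Results.MP_e7e4ab_pr.Rooted.result
    (F : (n : ℕ) → SimpleGraph (Node (n + 1)) → Sym2 (Node (n + 1)) → ℝ)
    (hF : ∀ (n : ℕ) (π : Equiv.Perm (Node (n + 1))) (G : SimpleGraph (Node (n + 1)))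
      (e : Sym2 (Node (n + 1))), F n (G.map π.toEmbedding) (e.map π) = F n G e) :
    ∃ q ∈ Set.Icc (0 : ℝ) (1 / 2), (q = 9 / 20 ∨ q = 1 / 2) ∧
      ¬ ∀ ε > 0, Tendsto
        (fun n => prob q (n + 1) {p | ε ≤ |F n (tree p) (rootEdge n) - q|}) atTop (𝓝 0) := by
  by_contra hcon
  push Not at hcon
  have h1 := hcon (9 / 20) ⟨by norm_num, by norm_num⟩ (Or.inl rfl)
  have h2 := hcon (1 / 2) ⟨by norm_num, by norm_num⟩ (Or.inr rfl)
  refine not_consistent (fun n p => F n (tree p) (rootEdge n)) ?_ h1 h2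
  intro n π hπ p
  show F n (tree (conj π p)) (rootEdge n) = F n (tree p) (rootEdge n)
  rw [tree_conj π hπ p]
  conv_lhs => rw [← rootEdge_map π hπ]
  exact hF n π (tree p) (rootEdge n)
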